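import Pool.Agent.helper37.MW.Spec

set_option autoImplicit false

namespace Pool.Agent.helper37.MW

open Finset Pool.Agent.NK

theorem GWS_nonneg (p i : ℕ) (ρ : ℝ) (h0 : 0 ≤ ρ) (h1 : ρ ≤ 1) : 0 ≤ mu p i ρ := by
  unfold mu
  have h2 : 0 ≤ 1 - ρ := by linarith
  positivity

theorem GWS_total (p : ℕ) (ρ : ℝ) : ∑ i ∈ range (p + 1), mu p i ρ = 1 := by
  have h := add_pow ρ (1 - ρ) p
  have h1 : ρ + (1 - ρ) = 1 := by ring
  rw [h1, one_pow] at h
  rw [h]
  apply sum_congr rfl
  intro i _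
  unfold mu
  ring

theorem GWS_w (n m : ℕ) (h : n ≤ m) : (0.52 : ℝ) ^ (2 * m) ≤ (0.52 : ℝ) ^ (2 * n) :=
  pow_le_pow_of_le_one (by norm_num) (by norm_num) (by omega)

theorem GWS (h1 : MPB_stmt) (h2 : MPS_stmt) : GWS_stmt := by
  intro p S ρ hp hρ1 hρ2 hS hSp
  have h0 : 0 ≤ ρ := by linarith
  have h1' : ρ ≤ 1 := by linarith
  have hnn : ∀ i, 0 ≤ mu p i ρ := fun i => GWS_nonneg p i ρ h0 h1'
  obtain ⟨q1, q2, q3, q4, q5⟩ := h2 ρ hρ1 hρ2
  have hm3 : ∀ i, 3 ≤ i → i ≤ p → mu p i ρ ≤ 0.28 := by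
    intro i hi hip
    rcases Nat.lt_or_ge p 8 with h | h
    · exact q5 p i hi hip (by omega)
    · exact (h1 p i ρ hρ1 hρ2).2 h
  have hm2 : ∀ i, 2 ≤ i → i ≤ p → mu p i ρ ≤ 0.333 := by
    intro i hi hip
    rcases Nat.lt_or_ge i 3 with h | h
    · have hi2 : i = 2 := by omega
      subst hi2
      rcases Nat.lt_or_ge p 5 with h' | h'
      · rcases (show p = 3 ∨ p = 4 by omega) with rfl | rfl
        · linarith
        · linarith
      · exact (h1 p 2 ρ hρ1 hρ2).1 h'
    · have := hm3 i h hip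
      linarith
  have hne : S.Nonempty := card_pos.mp (by omega)
  obtain ⟨s, hs⟩ : ∃ s, s = S.max' hne := ⟨_, rfl⟩
  have hsS : s ∈ S := by rw [hs]; exact max'_mem S hne
  have hsmax : ∀ i ∈ S, i ≤ s := fun i hi => by rw [hs]; exact le_max' S i hi
  have hc1 : #(S.erase s) = #S - 1 := card_erase_of_mem hsS
  have hne1 : (S.erase s).Nonempty := card_pos.mp (by omega)
  obtain ⟨s', hs'⟩ : ∃ s', s' = (S.erase s).max' hne1 := ⟨_, rfl⟩
  have hs'1 : s' ∈ S.erase s := by rw [hs']; exact max'_mem _ hne1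
  have hs'max : ∀ i ∈ S.erase s, i ≤ s' := fun i hi => by rw [hs']; exact le_max' _ i hi
  have hs'S : s' ∈ S := mem_of_mem_erase hs'1
  have hlt : s' < s := lt_of_le_of_ne (hsmax s' hs'S) (ne_of_mem_erase hs'1)
  have hsplit : ∀ g : ℕ → ℝ, ∑ i ∈ S, g i = g s + (g s' + ∑ i ∈ (S.erase s).erase s', g i) := by
    intro g
    rw [← add_sum_erase S g hsS, ← add_sum_erase (S.erase s) g hs'1]
  -- the weights
  have w0 : (0.52 : ℝ) ^ (2 * #{l ∈ S | s < l}) ≤ 1 :=
    pow_le_one₀ (by norm_num) (by norm_num)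
  have w1 : (0.52 : ℝ) ^ (2 * #{l ∈ S | s' < l}) ≤ 0.2704 := by
    have hc : 1 ≤ #{l ∈ S | s' < l} := card_pos.mpr ⟨s, mem_filter.mpr ⟨hsS, hlt⟩⟩
    refine (GWS_w 1 _ hc).trans ?_
    norm_num
  have w2 : ∀ i ∈ (S.erase s).erase s', (0.52 : ℝ) ^ (2 * #{l ∈ S | i < l}) ≤ 0.0732 := by
    intro i hi
    have hi1 : i ∈ S.erase s := mem_of_mem_erase hi
    have hi2 : i < s' := lt_of_le_of_ne (hs'max i hi1) (ne_of_mem_erase hi)
    have hc : 2 ≤ #{l ∈ S | i < l} := by
      have hsub : ({s, s'} : Finset ℕ) ⊆ {l ∈ S | i < l} := by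
        intro l hl
        simp only [mem_insert, mem_singleton] at hl
        rw [mem_filter]
        rcases hl with rfl | rfl
        · exact ⟨hsS, by omega⟩
        · exact ⟨hs'S, hi2⟩
      have := card_le_card hsub
      rwa [card_pair hlt.ne'] at this
    refine (GWS_w 2 _ hc).trans ?_
    norm_num
  have hsum : ∑ i ∈ S, mu p i ρ * (0.52 : ℝ) ^ (2 * #{l ∈ S | i < l}) ≤
      mu p s ρ + (0.2704 * mu p s' ρ + 0.0732 * ∑ i ∈ (S.erase s).erase s', mu p i ρ) := by
    rw [hsplit]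
    refine add_le_add ?_ (add_le_add ?_ ?_)
    · calc mu p s ρ * (0.52 : ℝ) ^ (2 * #{l ∈ S | s < l}) ≤ mu p s ρ * 1 :=
          mul_le_mul_of_nonneg_left w0 (hnn s)
        _ = mu p s ρ := mul_one _
    · rw [mul_comm]
      exact mul_le_mul_of_nonneg_right w1 (hnn s')
    · rw [mul_sum]
      apply sum_le_sum
      intro i hi
      rw [mul_comm]
      exact mul_le_mul_of_nonneg_right (w2 i hi) (hnn i)
  refine hsum.trans ?_
  have hs'b := hSp s' hs'S
  have hsb := hSp s hsS
  have hc2 : #((S.erase s).erase s') = #(S.erase s) - 1 := card_erase_of_mem hs'1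
  rcases Nat.lt_or_ge (#S) 3 with hcase | hcase
  · have hempty : (S.erase s).erase s' = ∅ := card_eq_zero.mp (by omega)
    rw [hempty, sum_empty, mul_zero, add_zero]
    rcases Nat.lt_or_ge p 5 with h | h
    · rcases (show p = 3 ∨ p = 4 by omega) with hp3 | hp4
      · subst hp3
        have a1 : mu 3 s ρ ≤ 0.28 := by
          rcases (show s = 2 ∨ s = 3 by omega) with rfl | rfl
          · linarith
          · exact hm3 3 le_rfl le_rfl
        have a2 : mu 3 s' ρ ≤ 0.4445 := by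
          rcases (show s' = 1 ∨ s' = 2 by omega) with e | e
          · rw [e]; exact q1
          · rw [e]; linarith
        linarith
      · subst hp4
        have a1 : mu 4 s ρ ≤ 0.31 := by
          rcases (show s = 2 ∨ 3 ≤ s by omega) with e | e
          · rw [e]; exact q4
          · have := hm3 s e hsb.2
            linarith
        have a2 : mu 4 s' ρ ≤ 0.41 := by
          rcases (show s' = 1 ∨ s' = 2 ∨ 3 ≤ s' by omega) with e | e | e
          · rw [e]; exact q3
          · rw [e]; linarith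
          · have := hm3 s' e hs'b.2
            linarith
        linarith
    · have a1 := (h1 p s ρ hρ1 hρ2).1 h
      have a2 := (h1 p s' ρ hρ1 hρ2).1 h
      linarith
  · obtain ⟨i, hi⟩ : ((S.erase s).erase s').Nonempty := card_pos.mp (by omega)
    have hi1 : i ∈ S.erase s := mem_of_mem_erase hi
    have hi2 : i < s' := lt_of_le_of_ne (hs'max i hi1) (ne_of_mem_erase hi)
    have hi3 := (hSp i (mem_of_mem_erase hi1)).1
    have a1 := hm3 s (by omega) hsb.2
    have a2 := hm2 s' (by omega) hs'b.2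
    have a3 : ∑ i ∈ S, mu p i ρ ≤ 1 := by
      rw [← GWS_total p ρ]
      apply sum_le_sum_of_subset_of_nonneg
      · intro l hl
        rw [mem_range]
        have := (hSp l hl).2
        omega
      · intro l _ _
        exact hnn l
    rw [hsplit] at a3
    have b1 := hnn s
    have b2 := hnn s'
    linarith

end Pool.Agent.helper37.MW
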